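import Pool.Agent.Q266.CII
import Pool.Agent.Q266.CIJ

set_option autoImplicit false

/-!
# MP_472c23_co: the polynomials `P_{1,n}, …, P_{5,n}`
-/

namespace Pool.Agent.Results.MP_472c23_co.CompleteSignAnalysis

open Pool.Agent.Q266.CIF Pool.Agent.Q266.CIH Pool.Agent.Q266.CII Pool.Agent.Q266.CIJ

/-- `[m]! = (1 - q)(1 - q^2) ⋯ (1 - q^m)` as a rational function of `q` -/
noncomputable def br (m : ℕ) : RatFunc ℚ := ∏ i ∈ Finset.range m, (1 - RatFunc.X ^ (i + 1))

/-- `F_n(q)` -/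
noncomputable def F (n : ℕ) : RatFunc ℚ := (br (6 * n) * br n) / (br (3 * n) * br (2 * n) ^ 2)

/-- `P_{1,n}` -/
noncomputable def P1 (n : ℕ) : RatFunc ℚ := (1 - RatFunc.X) / (1 - RatFunc.X ^ (2 * n + 1)) * F n

/-- `P_{2,n}` -/
noncomputable def P2 (n : ℕ) : RatFunc ℚ :=
  (1 - RatFunc.X ^ 3) / (1 - RatFunc.X ^ (2 * n + 3)) * F n

/-- `P_{3,n}` -/
noncomputable def P3 (n : ℕ) : RatFunc ℚ :=
  ((1 - RatFunc.X) * (1 - RatFunc.X ^ 3)) /
    ((1 - RatFunc.X ^ (2 * n + 1)) * (1 - RatFunc.X ^ (2 * n + 3))) * F n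

/-- `P_{4,n}` -/
noncomputable def P4 (n : ℕ) : RatFunc ℚ :=
  ((1 - RatFunc.X ^ 3) * (1 - RatFunc.X ^ 5) * (1 - RatFunc.X ^ 7)) /
    ((1 - RatFunc.X ^ (2 * n + 3)) * (1 - RatFunc.X ^ (2 * n + 5)) *
      (1 - RatFunc.X ^ (2 * n + 7))) * F n

/-- `P_{5,n}` -/
noncomputable def P5 (n : ℕ) : RatFunc ℚ :=
  ((1 - RatFunc.X ^ 3) ^ 2 * (1 - RatFunc.X ^ 5) * (1 - RatFunc.X ^ 7)) /
    ((1 - RatFunc.X ^ (2 * n + 1)) * (1 - RatFunc.X ^ (2 * n + 3)) *
      (1 - RatFunc.X ^ (2 * n + 5)) * (1 - RatFunc.X ^ (2 * n + 7))) * F n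

/-- the embedding of the integer polynomials in the rational functions -/
noncomputable def phi : Polynomial ℤ →+* RatFunc ℚ :=
  (algebraMap (Polynomial ℚ) (RatFunc ℚ)).comp (Polynomial.mapRingHom (Int.castRingHom ℚ))

/-- a rational function which is a polynomial (with rational coefficients) -/
def IsPoly (f : RatFunc ℚ) : Prop :=
  ∃ P : Polynomial ℚ, f = algebraMap (Polynomial ℚ) (RatFunc ℚ) P

/-- a rational function which is a polynomial with non-negative integer coefficients -/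
def NonnegIntPoly (f : RatFunc ℚ) : Prop :=
  ∃ P : Polynomial ℤ, (∀ k : ℕ, 0 ≤ P.coeff k) ∧ f = phi P

/-- `s` is the expansion at `q = 0` of the rational function `f`: one has `f = N / D` with integer
polynomials, `D(0) = 1`, and `s D = N` in `ℤ[[q]]` -/
def IsExpansion (f : RatFunc ℚ) (s : PowerSeries ℤ) : Prop :=
  ∃ N D : Polynomial ℤ, D.coeff 0 = 1 ∧ f = phi N / phi D ∧
    s * (D : PowerSeries ℤ) = (N : PowerSeries ℤ)

theorem phi_X : phi Polynomial.X = RatFunc.X := by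
  simp [phi]

theorem phi_inj : Function.Injective phi := by
  have h1 : Function.Injective (algebraMap (Polynomial ℚ) (RatFunc ℚ)) :=
    RatFunc.algebraMap_injective ℚ
  have h2 : Function.Injective (Polynomial.mapRingHom (Int.castRingHom ℚ)) :=
    Polynomial.map_injective _ (RingHom.injective_int _)
  exact h1.comp h2

theorem phi_qf (m : ℕ) : phi (qf m) = br m := by
  rw [qf, br, map_prod]
  refine Finset.prod_congr rfl (fun i _ => ?_)
  rw [map_sub, map_one, map_pow, phi_X]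

theorem phi_ne (D : Polynomial ℤ) (hD : D ≠ 0) : phi D ≠ 0 := by
  intro h2
  exact hD (phi_inj (by rw [h2, map_zero]))

theorem to_rat (N D P : Polynomial ℤ) (hD : D ≠ 0) (h : N = P * D) : phi N / phi D = phi P := by
  rw [div_eq_iff (phi_ne D hD), h, map_mul]

theorem e_ne (n e : ℕ) (he : 0 < e) : (1 : Polynomial ℤ) - Polynomial.X ^ (2 * n + e) ≠ 0 :=
  fac_ne _ (by omega)

theorem q_ne (n : ℕ) : qf (3 * n) * qf (2 * n) ^ 2 ≠ 0 :=
  mul_ne_zero (qf_ne _) (pow_ne_zero 2 (qf_ne _))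

theorem D2_ne (n : ℕ) : D2 n ≠ 0 := mul_ne_zero (e_ne n 3 (by norm_num)) (q_ne n)

theorem D3_ne (n : ℕ) : D3 n ≠ 0 :=
  mul_ne_zero (mul_ne_zero (e_ne n 1 (by norm_num)) (e_ne n 3 (by norm_num))) (q_ne n)

theorem D4_ne (n : ℕ) : D4 n ≠ 0 :=
  mul_ne_zero (mul_ne_zero (mul_ne_zero (e_ne n 3 (by norm_num)) (e_ne n 5 (by norm_num)))
    (e_ne n 7 (by norm_num))) (q_ne n)

theorem D5_ne (n : ℕ) : D5 n ≠ 0 :=
  mul_ne_zero (mul_ne_zero (mul_ne_zero (mul_ne_zero (e_ne n 1 (by norm_num))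
    (e_ne n 3 (by norm_num))) (e_ne n 5 (by norm_num))) (e_ne n 7 (by norm_num))) (q_ne n)

theorem P2_eq (n : ℕ) : P2 n = phi (N2 n) / phi (D2 n) := by
  rw [P2, F, N2, D2, div_mul_div_comm]
  simp only [map_mul, map_sub, map_one, map_pow, phi_X, phi_qf]

theorem P3_eq (n : ℕ) : P3 n = phi (N3 n) / phi (D3 n) := by
  rw [P3, F, N3, D3, div_mul_div_comm]
  simp only [map_mul, map_sub, map_one, map_pow, phi_X, phi_qf]

theorem P4_eq (n : ℕ) : P4 n = phi (N4 n) / phi (D4 n) := by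
  rw [P4, F, N4, D4, div_mul_div_comm]
  simp only [map_mul, map_sub, map_one, map_pow, phi_X, phi_qf]

theorem P5_eq (n : ℕ) : P5 n = phi (N5 n) / phi (D5 n) := by
  rw [P5, F, N5, D5, div_mul_div_comm]
  simp only [map_mul, map_sub, map_one, map_pow, phi_X, phi_qf]

theorem good_to (f : RatFunc ℚ) (N D : Polynomial ℤ) (hD : D ≠ 0) (hf : f = phi N / phi D)
    (h : Good N D) : NonnegIntPoly f := by
  obtain ⟨P, hP, hPe⟩ := h
  exact ⟨P, hP, hf.trans (to_rat N D P hD hPe)⟩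

theorem nonneg1 (n : ℕ) (hn : 0 < n) : NonnegIntPoly (P1 n) := by
  refine good_to (P1 n) _ _ (mul_ne_zero (e_ne n 1 (by norm_num)) (q_ne n)) ?_ (pos1 n hn)
  rw [P1, F, div_mul_div_comm]
  simp only [map_mul, map_sub, map_one, map_pow, phi_X, phi_qf]

theorem qf_eval (m : ℕ) : (qf m).eval 0 = 1 := by
  rw [qf, Polynomial.eval_prod]
  apply Finset.prod_eq_one
  intro i _
  simp

theorem D4_zero (n : ℕ) : (D4 n).coeff 0 = 1 := by
  rw [Polynomial.coeff_zero_eq_eval_zero, D4]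
  simp [qf_eval]

theorem D5_zero (n : ℕ) : (D5 n).coeff 0 = 1 := by
  rw [Polynomial.coeff_zero_eq_eval_zero, D5]
  simp [qf_eval]

/-- a rational function whose expansion has infinitely many negative coefficients is not a
polynomial -/
theorem not_poly (f : RatFunc ℚ) (s : PowerSeries ℤ) (h : IsExpansion f s)
    (hs : {k : ℕ | PowerSeries.coeff k s < 0}.Infinite) : ¬ IsPoly f := by
  rintro ⟨P, hP⟩
  obtain ⟨N, D, hD0, hf, hsD⟩ := h
  have hD : D ≠ 0 := by
    rintro rfl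
    simp at hD0
  have h1 : algebraMap (Polynomial ℚ) (RatFunc ℚ) P * phi D = phi N := by
    rw [← hP, hf, div_mul_cancel₀ _ (phi_ne D hD)]
  have h2 : P * D.map (Int.castRingHom ℚ) = N.map (Int.castRingHom ℚ) := by
    apply RatFunc.algebraMap_injective ℚ
    rw [map_mul]
    exact h1
  have h3 : (P : PowerSeries ℚ) * ((D.map (Int.castRingHom ℚ) : Polynomial ℚ) : PowerSeries ℚ) =
      ((N.map (Int.castRingHom ℚ) : Polynomial ℚ) : PowerSeries ℚ) := by
    rw [← Polynomial.coe_mul, h2]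
  have h4 := congrArg (PowerSeries.map (Int.castRingHom ℚ)) hsD
  rw [map_mul, ← Polynomial.polynomial_map_coe, ← Polynomial.polynomial_map_coe, ← h3] at h4
  have hD' : ((D.map (Int.castRingHom ℚ) : Polynomial ℚ) : PowerSeries ℚ) ≠ 0 := by
    intro h0
    have h5 : D.map (Int.castRingHom ℚ) = 0 := Polynomial.coe_injective ℚ (by rw [h0]; simp)
    exact hD ((Polynomial.map_eq_zero_iff (RingHom.injective_int _)).1 h5)
  have h5 := mul_right_cancel₀ hD' h4
  obtain ⟨k, hk, hkP⟩ := hs.exists_gt P.natDegree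
  have h6 := congrArg (PowerSeries.coeff k) h5
  rw [PowerSeries.coeff_map, Polynomial.coeff_coe,
    Polynomial.coeff_eq_zero_of_natDegree_lt hkP] at h6
  have h7 : PowerSeries.coeff k s = 0 := by
    have : ((PowerSeries.coeff k s : ℤ) : ℚ) = 0 := h6
    exact_mod_cast this
  have h8 : PowerSeries.coeff k s < 0 := hk
  omega

theorem defect (f : RatFunc ℚ) (N D : Polynomial ℤ) (hD0 : D.coeff 0 = 1)
    (hf : f = phi N / phi D) (hnd : ¬ ∃ Q : Polynomial ℤ, N = Q * D)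
    (h : ∃ P : Polynomial ℤ, (∀ e, 0 ≤ P.coeff e) ∧
      (1 - Polynomial.X ^ 9) * N = P * ((1 - Polynomial.X) * D)) :
    ¬ IsPoly f ∧ (∃ s : PowerSeries ℤ, IsExpansion f s ∧
      {k : ℕ | PowerSeries.coeff k s < 0}.Infinite) ∧
      NonnegIntPoly (f * ∑ j ∈ Finset.range 9, RatFunc.X ^ j) := by
  obtain ⟨P, hP, hPe⟩ := h
  obtain ⟨s, hs, hinf⟩ := inf_neg N D P hD0 hPe hnd
  have hexp : IsExpansion f s := ⟨N, D, hD0, hf, hs⟩
  refine ⟨not_poly f s hexp hinf, ⟨s, hexp, hinf⟩, P, hP, ?_⟩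
  have hD : D ≠ 0 := by
    rintro rfl
    simp at hD0
  have h1 : (∑ j ∈ Finset.range 9, (Polynomial.X : Polynomial ℤ) ^ j) * N = P * D := by
    apply mul_left_cancel₀ one_sub_X_ne
    have h2 : (1 - (Polynomial.X : Polynomial ℤ)) *
        (∑ j ∈ Finset.range 9, Polynomial.X ^ j) = 1 - Polynomial.X ^ 9 := by
      rw [mul_comm]
      exact geom_sum_mul_neg _ _
    rw [← mul_assoc, h2, hPe]
    ring
  have h3 := to_rat _ D P hD h1
  rw [← h3, hf, map_mul, map_sum]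
  simp only [map_pow, phi_X]
  ring

/-- The complete answer: `P_{1,n}`, `P_{2,n}`, `P_{3,n}` are polynomials with non-negative integer
coefficients for all `n ≥ 1`, and so are `P_{4,n}`, `P_{5,n}` for all `n ≥ 2` with `n ≢ 1 mod 9`.
For `n ≥ 2` with `n ≡ 1 mod 9` the rational functions `P_{4,n}` and `P_{5,n}` are not polynomials,
their expansions at `q = 0` (which have integer coefficients) have infinitely many negative
coefficients, and their products with `1 + q + ⋯ + q^8` are polynomials with non-negative integer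
coefficients. -/
theorem result :
    (∀ n : ℕ, 1 ≤ n → NonnegIntPoly (P1 n) ∧ NonnegIntPoly (P2 n) ∧ NonnegIntPoly (P3 n)) ∧
    (∀ n : ℕ, 2 ≤ n → n % 9 ≠ 1 → NonnegIntPoly (P4 n) ∧ NonnegIntPoly (P5 n)) ∧
    (∀ n : ℕ, 2 ≤ n → n % 9 = 1 →
      (¬ IsPoly (P4 n) ∧ (∃ s : PowerSeries ℤ, IsExpansion (P4 n) s ∧
        {k : ℕ | PowerSeries.coeff k s < 0}.Infinite) ∧
        NonnegIntPoly (P4 n * ∑ j ∈ Finset.range 9, RatFunc.X ^ j)) ∧
      (¬ IsPoly (P5 n) ∧ (∃ s : PowerSeries ℤ, IsExpansion (P5 n) s ∧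
        {k : ℕ | PowerSeries.coeff k s < 0}.Infinite) ∧
        NonnegIntPoly (P5 n * ∑ j ∈ Finset.range 9, RatFunc.X ^ j))) := by
  refine ⟨?_, ?_, ?_⟩
  · intro n hn
    exact ⟨nonneg1 n hn, good_to _ _ _ (D2_ne n) (P2_eq n) (good2 n hn),
      good_to _ _ _ (D3_ne n) (P3_eq n) (good3 n hn)⟩
  · intro n hn h9
    exact ⟨good_to _ _ _ (D4_ne n) (P4_eq n) (good4 n hn h9),
      good_to _ _ _ (D5_ne n) (P5_eq n) (good5 n hn h9)⟩
  · intro n hn h9
    exact ⟨defect _ _ _ (D4_zero n) (P4_eq n) (ndvd4 n h9) (pos4_nine n (by omega)),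
      defect _ _ _ (D5_zero n) (P5_eq n) (ndvd5 n h9) (pos5_nine n (by omega))⟩

end Pool.Agent.Results.MP_472c23_co.CompleteSignAnalysis
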